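import Mathlib

/-!
Two commutative algebra lemmas: a regularity criterion for a subring of a local ring, and the
dimension of the local ring of affine space at a rational point.
-/

namespace Pool.Agent.Helper68

open IsLocalRing

section T4

variable {k O : Type*} [Field k] [CharZero k] [CommRing O] [Algebra k O]

omit [CharZero k] in
theorem sum_apply_der {ι : Type*} (s : Finset ι) (F : ι → Derivation k O O) (x : O) :
    (∑ i ∈ s, F i) x = ∑ i ∈ s, F i x := by
  classical
  induction s using Finset.induction_on with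
  | empty => simp
  | insert a s ha ih => rw [Finset.sum_insert ha, Finset.sum_insert ha, Derivation.add_apply, ih]

omit [CharZero k] in
theorem euler_step (I m : Ideal O) (E : Derivation k O O) (hEm : ∀ x, E x ∈ m)
    (h1 : ∀ x ∈ m, E x - x ∈ I ⊔ m ^ 2) (s : ℕ) :
    ∀ x ∈ m ^ s, E x - (s : O) * x ∈ I ⊔ m ^ (s + 1) := by
  induction s with
  | zero =>
    intro x _
    simp only [Nat.cast_zero, zero_mul, sub_zero, zero_add, pow_one]
    exact Submodule.mem_sup_right (hEm x)
  | succ s ih =>
    intro x hx
    rw [pow_succ] at hx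
    refine Submodule.mul_induction_on hx ?_ ?_
    · intro b hb a ha
      -- E (b a) = b E a + a E b
      have e1 : E (b * a) - ((s + 1 : ℕ) : O) * (b * a)
          = b * (E a - a) + a * (E b - (s : O) * b) := by
        rw [Derivation.leibniz]
        simp only [smul_eq_mul]
        push_cast
        ring
      rw [e1]
      refine add_mem ?_ ?_
      · obtain ⟨u, hu, v, hv, huv⟩ := Submodule.mem_sup.mp (h1 a ha)
        rw [← huv, mul_add]
        refine add_mem (Submodule.mem_sup_left (Ideal.mul_mem_left _ _ hu))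
          (Submodule.mem_sup_right ?_)
        have : b * v ∈ m ^ s * m ^ 2 := Ideal.mul_mem_mul hb hv
        rwa [← pow_add] at this
      · obtain ⟨u, hu, v, hv, huv⟩ := Submodule.mem_sup.mp (ih b hb)
        rw [← huv, mul_add]
        refine add_mem (Submodule.mem_sup_left (Ideal.mul_mem_left _ _ hu))
          (Submodule.mem_sup_right ?_)
        have : a * v ∈ m * m ^ (s + 1) := Ideal.mul_mem_mul ha hv
        rwa [← pow_succ'] at this
    · intro x y hx hy
      have e1 : E (x + y) - ((s + 1 : ℕ) : O) * (x + y)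
          = (E x - ((s + 1 : ℕ) : O) * x) + (E y - ((s + 1 : ℕ) : O) * y) := by
        rw [map_add]; ring
      rw [e1]
      exact add_mem hx hy

/-- an element killed by the Euler operator lies in `I` -/
theorem mem_of_euler_zero [IsLocalRing O] [IsNoetherianRing O] (I : Ideal O)
    (E : Derivation k O O) (hEm : ∀ x, E x ∈ maximalIdeal O)
    (hEI : ∀ x ∈ I, E x ∈ I) (h1 : ∀ x ∈ maximalIdeal O, E x - x ∈ I ⊔ maximalIdeal O ^ 2)
    {x : O} (hx : x ∈ maximalIdeal O) (hEx : E x = 0) : x ∈ I := by
  have hall : ∀ s : ℕ, x ∈ I ⊔ maximalIdeal O ^ (s + 1) := by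
    intro s
    induction s with
    | zero => simpa using Submodule.mem_sup_right hx
    | succ s ih =>
      obtain ⟨y, hy, w, hw, hyw⟩ := Submodule.mem_sup.mp ih
      have h2 := euler_step I (maximalIdeal O) E hEm h1 (s + 1) w hw
      have h3 : ((s + 1 : ℕ) : O) * w ∈ I ⊔ maximalIdeal O ^ (s + 1 + 1) := by
        have e1 : E w = - E y := by
          have : E y + E w = 0 := by rw [← map_add, hyw, hEx]
          linear_combination this
        have e2 : ((s + 1 : ℕ) : O) * w = -(E y) - (E w - ((s + 1 : ℕ) : O) * w) := by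
          rw [e1]; ring
        rw [e2]
        exact sub_mem (neg_mem (Submodule.mem_sup_left (hEI y hy))) h2
      have h4 : w ∈ I ⊔ maximalIdeal O ^ (s + 1 + 1) := by
        have e3 : w = algebraMap k O (((s + 1 : ℕ) : k)⁻¹) * (((s + 1 : ℕ) : O) * w) := by
          rw [← mul_assoc, ← map_natCast (algebraMap k O) (s + 1), ← map_mul,
            inv_mul_cancel₀ (by exact_mod_cast Nat.succ_ne_zero s), map_one, one_mul]
        rw [e3]
        exact Ideal.mul_mem_left _ _ h3
      rw [← hyw]
      exact add_mem (Submodule.mem_sup_left hy) h4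
  -- Krull intersection in `O ⧸ I`
  have hk := Ideal.iInf_pow_smul_eq_bot_of_isLocalRing (M := O ⧸ I) (maximalIdeal O)
    (maximalIdeal.isMaximal O).ne_top
  have hmem : (Submodule.Quotient.mk x : O ⧸ I) ∈
      (⨅ i : ℕ, maximalIdeal O ^ i • (⊤ : Submodule O (O ⧸ I))) := by
    rw [Submodule.mem_iInf]
    intro i
    have h5 : x ∈ I ⊔ maximalIdeal O ^ i := by
      refine (sup_le_sup_left (Ideal.pow_le_pow_right (Nat.le_succ i)) I) (hall i)
    obtain ⟨y, hy, w, hw, hyw⟩ := Submodule.mem_sup.mp h5
    have e1 : (Submodule.Quotient.mk x : O ⧸ I) = w • (Submodule.Quotient.mk 1 : O ⧸ I) := by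
      rw [← Submodule.Quotient.mk_smul, Submodule.Quotient.eq, smul_eq_mul, mul_one, ← hyw]
      simpa using hy
    rw [e1]
    exact Submodule.smul_mem_smul hw trivial
  rw [hk, Submodule.mem_bot, Submodule.Quotient.mk_eq_zero] at hmem
  exact hmem

theorem T4_regular [IsLocalRing O] [IsNoetherianRing O]
    (R : Subalgebra k O) [IsLocalRing R]
    (hloc : ∀ x : R, x ∈ maximalIdeal R ↔ (x : O) ∈ maximalIdeal O)
    (m q : ℕ) (h : Fin m → R) (hh : ∀ i, h i ∈ maximalIdeal R) (z : Fin q → O)
    (hgen : maximalIdeal O ≤ Ideal.span (Set.range (fun i => (h i : O)) ∪ Set.range z))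
    (hz : ∀ i, z i ∈ maximalIdeal O)
    (D : Fin q → Derivation k O O) (hR : ∀ j, ∀ x ∈ R, D j x = 0)
    (hdet : IsUnit (Matrix.of fun i j => D j (z i)).det)
    (hpure : ∀ J : Ideal R, (J.map R.val).comap R.val ≤ J)
    (hdim : ((m + q : ℕ) : WithBot ℕ∞) ≤ ringKrullDim O) :
    IsRegularLocalRing R := by
  classical
  -- `R` is Noetherian
  have hstrict : StrictMono (fun J : Ideal R => J.map R.val) := by
    intro J J' hJ
    refine lt_of_le_of_ne (Ideal.map_mono hJ.le) ?_
    intro he
    have he' : J.map R.val = J'.map R.val := he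
    apply hJ.ne
    apply le_antisymm hJ.le
    calc J' ≤ (J'.map R.val).comap R.val := Ideal.le_comap_map
      _ = (J.map R.val).comap R.val := by rw [he']
      _ ≤ J := hpure J
  have hNoeth : IsNoetherianRing R := by
    rw [isNoetherianRing_iff, isNoetherian_iff']
    exact hstrict.wellFoundedGT
  set I : Ideal O := Ideal.span (Set.range (fun i => (h i : O))) with hI
  -- the matrix and the Euler operator
  set A : Matrix (Fin q) (Fin q) O := Matrix.of fun i j => D j (z i) with hA
  set c : Matrix (Fin q) (Fin q) O := A⁻¹ with hc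
  have hAc : A * c = 1 := Matrix.mul_nonsing_inv A hdet
  -- E_i = ∑ j, c j i • D j satisfies E_i z_l = δ
  set E : Derivation k O O := ∑ i, z i • ∑ j, c j i • D j with hE
  have hEapp : ∀ x, E x = ∑ i, z i * ∑ j, c j i * D j x := by
    intro x
    rw [hE, sum_apply_der]
    refine Finset.sum_congr rfl fun i _ => ?_
    rw [Derivation.smul_apply, sum_apply_der, smul_eq_mul]
    simp only [Derivation.smul_apply, smul_eq_mul]
  have hER : ∀ x ∈ R, E x = 0 := by
    intro x hx
    rw [hEapp]
    simp [hR _ x hx]
  have hEz : ∀ l, E (z l) = z l := by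
    intro l
    rw [hEapp]
    have e1 : ∀ i, ∑ j, c j i * D j (z l) = if l = i then 1 else 0 := by
      intro i
      have := congrFun (congrFun hAc l) i
      rw [Matrix.mul_apply, Matrix.one_apply] at this
      rw [← this]
      refine Finset.sum_congr rfl fun j _ => ?_
      simp only [hA, Matrix.of_apply]
      ring
    simp only [e1]
    simp
  have hEm : ∀ x, E x ∈ maximalIdeal O := by
    intro x
    rw [hEapp]
    exact Ideal.sum_mem _ fun i _ => Ideal.mul_mem_right _ _ (hz i)
  have hEI : ∀ x ∈ I, E x ∈ I := by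
    intro x hx
    refine Submodule.span_induction (p := fun x _ => E x ∈ I) ?_ ?_ ?_ ?_ hx
    · rintro _ ⟨i, rfl⟩
      simp only
      rw [hER _ (h i).2]
      exact I.zero_mem
    · simp
    · intro x y _ _ hx hy
      rw [map_add]; exact add_mem hx hy
    · intro a x hx' hx
      rw [smul_eq_mul, Derivation.leibniz]
      refine add_mem (Ideal.mul_mem_left _ _ hx) ?_
      rw [smul_eq_mul]
      exact Ideal.mul_mem_right _ _ hx'
  have h1 : ∀ x ∈ maximalIdeal O, E x - x ∈ I ⊔ maximalIdeal O ^ 2 := by
    intro x hx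
    refine Submodule.span_induction (p := fun x _ => E x - x ∈ I ⊔ maximalIdeal O ^ 2)
      ?_ ?_ ?_ ?_ (hgen hx)
    · rintro y (⟨i, rfl⟩ | ⟨i, rfl⟩)
      · simp only
        rw [hER _ (h i).2, zero_sub]
        exact Submodule.mem_sup_left (neg_mem (Ideal.subset_span ⟨i, rfl⟩))
      · rw [hEz, sub_self]; exact Submodule.zero_mem _
    · simp
    · intro x y _ _ hx hy
      have : E (x + y) - (x + y) = (E x - x) + (E y - y) := by rw [map_add]; ring
      rw [this]; exact add_mem hx hy
    · intro a x hx' hx
      have e1 : E (a • x) - a • x = a * (E x - x) + x * E a := by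
        rw [smul_eq_mul, Derivation.leibniz]
        simp only [smul_eq_mul]; ring
      rw [e1]
      refine add_mem (Ideal.mul_mem_left _ _ hx) (Submodule.mem_sup_right ?_)
      rw [pow_two]
      refine Ideal.mul_mem_mul ?_ (hEm a)
      -- the generators lie in the maximal ideal
      have hle : Ideal.span (Set.range (fun i => (h i : O)) ∪ Set.range z) ≤ maximalIdeal O := by
        rw [Ideal.span_le]
        rintro y (⟨i, rfl⟩ | ⟨i, rfl⟩)
        · exact (hloc _).mp (hh i)
        · exact hz i
      exact hle hx'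
  -- the maximal ideal of `R`
  set J : Ideal R := Ideal.span (Set.range h) with hJ
  have hmapJ : J.map R.val = I := by
    rw [hJ, Ideal.map_span, hI]
    congr 1
    rw [← Set.range_comp]
    rfl
  have hmJ : maximalIdeal R ≤ J := by
    intro x hx
    apply hpure J
    rw [hmapJ, Ideal.mem_comap]
    exact mem_of_euler_zero I E hEm hEI h1 ((hloc x).mp hx) (hER _ x.2)
  have hmJ' : maximalIdeal R = J := by
    apply le_antisymm hmJ
    rw [hJ, Ideal.span_le]
    rintro _ ⟨i, rfl⟩
    exact hh i
  -- dimension
  have hdimR : (m : WithBot ℕ∞) ≤ ringKrullDim R := by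
    obtain ⟨Y, hY, hYc⟩ := Ideal.exists_finset_card_eq_height_of_isNoetherianRing (maximalIdeal R)
    have hmin : maximalIdeal O ∈ (Ideal.span
        (((fun r : R => (r : O)) '' (Y : Set R)) ∪ Set.range z)).minimalPrimes := by
      refine ⟨⟨(maximalIdeal.isMaximal O).isPrime, ?_⟩, ?_⟩
      · rw [Ideal.span_le]
        rintro y (⟨r, hr, rfl⟩ | ⟨i, rfl⟩)
        · exact (hloc r).mp (hY.1.2 (Ideal.subset_span hr))
        · exact hz i
      · rintro p ⟨hp, hpY⟩ hpm
        have hpc : (p.comap R.val).IsPrime := Ideal.IsPrime.comap _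
        have hle : maximalIdeal R ≤ p.comap R.val := by
          apply hY.2 ⟨hpc, ?_⟩ ?_
          · rw [Ideal.span_le]
            intro r hr
            exact hpY (Ideal.subset_span (Or.inl ⟨r, hr, rfl⟩))
          · intro r hr
            exact (hloc r).mpr (hpm hr)
        refine hgen.trans ?_
        rw [Ideal.span_le]
        rintro y (⟨i, rfl⟩ | ⟨i, rfl⟩)
        · exact hle (hh i)
        · exact hpY (Ideal.subset_span (Or.inr ⟨i, rfl⟩))
    have hfin : (((fun r : R => (r : O)) '' (Y : Set R)) ∪ Set.range z).Finite :=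
      (Y.finite_toSet.image _).union (Set.finite_range z)
    have hht := Ideal.height_le_card_of_mem_minimalPrimes_span hfin hmin
    have hcard : (((fun r : R => (r : O)) '' (Y : Set R)) ∪ Set.range z).ncard ≤ Y.card + q := by
      refine (Set.ncard_union_le _ _).trans ?_
      refine add_le_add ?_ ?_
      · refine (Set.ncard_image_le Y.finite_toSet).trans ?_
        rw [Set.ncard_coe_finset]
      · rw [← Set.image_univ]
        refine (Set.ncard_image_le Set.finite_univ).trans ?_
        rw [Set.ncard_univ, Nat.card_fin]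
    rw [← IsLocalRing.maximalIdeal_height_eq_ringKrullDim] at hdim ⊢
    have h5 : ((m + q : ℕ) : WithBot ℕ∞) ≤ ((Y.card + q : ℕ) : WithBot ℕ∞) := by
      refine hdim.trans ?_
      refine (WithBot.coe_le_coe.mpr hht).trans ?_
      exact_mod_cast hcard
    have h6 : m + q ≤ Y.card + q := by exact_mod_cast h5
    have h7 : m ≤ Y.card := by omega
    rw [← hYc]
    exact_mod_cast h7
  apply IsRegularLocalRing.of_spanFinrank_maximalIdeal_le
  refine le_trans ?_ hdimR
  have h8 : (maximalIdeal R).spanFinrank ≤ m := by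
    rw [hmJ', hJ]
    refine (Submodule.spanFinrank_span_le_ncard_of_finite (Set.finite_range h)).trans ?_
    rw [← Set.image_univ]
    refine (Set.ncard_image_le Set.finite_univ).trans ?_
    rw [Set.ncard_univ, Nat.card_fin]
  exact_mod_cast h8

end T4

theorem T5_dim {k σ : Type*} [Field k] [IsAlgClosed k] [Fintype σ] (x : σ → k)
    (P : Ideal (MvPolynomial σ k)) [P.IsPrime] (hP : P = RingHom.ker (MvPolynomial.eval x)) :
    ringKrullDim (Localization.AtPrime P) = Fintype.card σ := by
  classical
  have hdim : ringKrullDim (MvPolynomial σ k) = Fintype.card σ := by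
    rw [MvPolynomial.ringKrullDim_of_isNoetherianRing, ringKrullDim_eq_zero_of_field,
      Nat.card_eq_fintype_card, zero_add]
  have : FiniteRingKrullDim (MvPolynomial σ k) := by
    rw [finiteRingKrullDim_iff_ne_bot_and_top, hdim]
    constructor
    · exact WithBot.coe_ne_bot
    · intro h
      have h2 : ((Fintype.card σ : ℕ∞) : WithBot ℕ∞) = ((⊤ : ℕ∞) : WithBot ℕ∞) := h
      exact ENat.natCast_ne_top _ (WithBot.coe_injective h2)
  rw [IsLocalization.AtPrime.ringKrullDim_eq_height P (Localization.AtPrime P), ← hdim]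
  obtain ⟨M, hM, hMh⟩ := Ideal.exists_isMaximal_height (R := MvPolynomial σ k)
  rw [← hMh]
  obtain ⟨y, hy⟩ := MvPolynomial.isMaximal_iff_eq_vanishingIdeal_singleton.mp hM
  -- translation automorphism
  let f : (σ → k) → MvPolynomial σ k →ₐ[k] MvPolynomial σ k := fun a =>
    MvPolynomial.aeval fun i => MvPolynomial.X i + MvPolynomial.C (a i)
  have hf : ∀ a, (f a).comp (f (-a)) = AlgHom.id k _ := by
    intro a
    apply MvPolynomial.algHom_ext
    intro i
    simp [f]
  let e : MvPolynomial σ k ≃ₐ[k] MvPolynomial σ k :=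
    AlgEquiv.ofAlgHom (f (y - x)) (f (-(y - x))) (hf _) (by simpa using hf (-(y - x)))
  have heval : ∀ p, MvPolynomial.eval x (e p) = MvPolynomial.eval y p := by
    intro p
    have : ((MvPolynomial.aeval x).comp (f (y - x)) : MvPolynomial σ k →ₐ[k] k)
        = MvPolynomial.aeval y := by
      apply MvPolynomial.algHom_ext
      intro i
      simp [f]
    have h2 := DFunLike.congr_fun this p
    change MvPolynomial.eval x (f (y - x) p) = _
    simpa [MvPolynomial.coe_aeval_eq_eval] using h2
  have hcomap : P.comap (e.toRingEquiv : MvPolynomial σ k →+* MvPolynomial σ k) = M := by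
    ext p
    rw [Ideal.mem_comap, hP, RingHom.mem_ker, hy, MvPolynomial.mem_vanishingIdeal_singleton_iff]
    change MvPolynomial.eval x (e p) = 0 ↔ _
    rw [heval]
    simp
  rw [← hcomap]
  congr 1
  exact (RingEquiv.height_comap e.toRingEquiv P).symm

end Pool.Agent.Helper68
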