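import Pool.Agent.Helper52.Good

/-!
Dominance lemma: lowest order terms in a sum `∑ C(p,k) (1+z)^(N-λ) (1-z)^λ Q_k`.
-/

namespace Pool.Agent.Helper68

open Finset Pool.Agent.Helper52

/-- a power series divisible by `X ^ n`, bounded by `E` on the disc of radius `1/4` -/
theorem ev_le_of_dvd {Q : PowerSeries ℂ} (hQ : Q ∈ Good) {n : ℕ}
    (hd : (PowerSeries.X : PowerSeries ℂ) ^ n ∣ Q) {E : ℝ}
    (hE : ∀ z : ℂ, ‖z‖ ≤ 1 / 4 → ‖ev z Q‖ ≤ E) (z : ℂ) (hz : ‖z‖ ≤ 1 / 4) :
    ‖ev z Q‖ ≤ (4 * ‖z‖) ^ n * E := by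
  have hG := shift_mem_Good (n := n) hQ
  have hdiff : DiffContOnCl ℂ (fun z => ev z (shift n Q)) (Metric.ball 0 (1 / 4)) := by
    apply DifferentiableOn.diffContOnCl
    apply (ev_differentiableOn hG).mono
    rw [closure_ball (0 : ℂ) (by norm_num)]
    exact Metric.closedBall_subset_ball (by norm_num)
  have hfr : ∀ w ∈ frontier (Metric.ball (0 : ℂ) (1 / 4)), ‖ev w (shift n Q)‖ ≤ 4 ^ n * E := by
    intro w hw
    rw [frontier_ball (0 : ℂ) (by norm_num)] at hw
    have hw' : ‖w‖ = 1 / 4 := by simpa using hw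
    have h1 := ev_eq_pow_mul_shift hd hQ (z := w) (by rw [hw']; norm_num)
    have h2 := hE w hw'.le
    rw [h1, norm_mul, norm_pow, hw'] at h2
    have h3 : (4 : ℝ) ^ n * ((1 / 4) ^ n * ‖ev w (shift n Q)‖) ≤ 4 ^ n * E :=
      mul_le_mul_of_nonneg_left h2 (by positivity)
    rw [← mul_assoc, ← mul_pow] at h3
    norm_num at h3
    exact h3
  have hin := Complex.norm_le_of_forall_mem_frontier_norm_le Metric.isBounded_ball hdiff hfr
    (z := z) (by
      rw [closure_ball (0 : ℂ) (by norm_num)]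
      simpa using hz)
  rw [ev_eq_pow_mul_shift hd hQ (z := z) (by linarith), norm_mul, norm_pow, mul_pow]
  calc ‖z‖ ^ n * ‖ev z (shift n Q)‖ ≤ ‖z‖ ^ n * (4 ^ n * E) :=
        mul_le_mul_of_nonneg_left hin (by positivity)
    _ = 4 ^ n * ‖z‖ ^ n * E := by ring

/-- if `Q_s` is small on an arc then its order is large -/
theorem order_large {Q : PowerSeries ℂ} (hQ : Q ∈ GI) {t η p : ℝ} (ht0 : 0 < t) (ht : t ≤ 1 / 8)
    (hη : η ≤ t / 48) (hp : 0 < p)
    (hE : ∀ z : ℂ, ‖z‖ ≤ 1 / 4 → ‖ev z Q‖ ≤ Real.exp (η * p))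
    (harc : ∀ z : ℂ, ‖z‖ = t → t / 2 ≤ z.re → ‖ev z Q‖ ≤ Real.exp (-(t * p / 8)))
    {ε : ℝ} (hε : ε ≤ t / (128 * Real.log (1 / t))) :
    (PowerSeries.X : PowerSeries ℂ) ^ ⌈ε * p⌉₊ ∣ Q := by
  by_contra hnd
  have hlog : 0 < Real.log (1 / t) := by
    apply Real.log_pos
    rw [lt_div_iff₀ ht0]; linarith
  have hex : ∃ m, m < ⌈ε * p⌉₊ ∧ PowerSeries.coeff m Q ≠ 0 := by
    by_contra hcon
    push Not at hcon
    exact hnd (PowerSeries.X_pow_dvd_iff.mpr hcon)
  classical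
  set n := Nat.find hex with hn
  obtain ⟨hn1, hn2⟩ := Nat.find_spec hex
  have hmin : ∀ m < n, PowerSeries.coeff m Q = 0 := by
    intro m hm
    by_contra hne
    exact Nat.find_min hex hm ⟨lt_trans hm hn1, hne⟩
  have hd : (PowerSeries.X : PowerSeries ℂ) ^ n ∣ Q := PowerSeries.X_pow_dvd_iff.mpr hmin
  have hQG := GI.good hQ
  set G := shift n Q with hGdef
  have hG : G ∈ Good := shift_mem_Good hQG
  have hG0 : 1 ≤ ‖ev 0 G‖ := by
    rw [ev_zero]
    have : PowerSeries.constantCoeff G = PowerSeries.coeff n Q := by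
      rw [← PowerSeries.coeff_zero_eq_constantCoeff_apply, hGdef, shift, PowerSeries.coeff_mk,
        zero_add]
    rw [this]
    exact GI.one_le_norm hQ hn2
  -- values on the circle
  have hGval : ∀ w : ℂ, ‖w‖ = t → ‖ev w G‖ = ‖ev w Q‖ / t ^ n := by
    intro w hw
    rw [ev_eq_pow_mul_shift hd hQG (z := w) (by rw [hw]; linarith), norm_mul, norm_pow, hw]
    rw [mul_div_cancel_left₀ _ (by positivity)]
  have hbig : ∀ w : ℂ, ‖w‖ = t → ‖ev w G‖ ≤ Real.exp (η * p) / t ^ n := by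
    intro w hw
    rw [hGval w hw]
    exact div_le_div_of_nonneg_right (hE w (by rw [hw]; linarith)) (by positivity)
  have hsmall : ∀ w : ℂ, ‖w‖ = t → t / 2 ≤ w.re →
      ‖ev w G‖ ≤ Real.exp (-(t * p / 8)) / t ^ n := by
    intro w hw hre
    rw [hGval w hw]
    exact div_le_div_of_nonneg_right (harc w hw hre) (by positivity)
  set Φ : ℂ → ℂ := fun z => ev z G * ev (Complex.I * z) G * ev (-z) G * ev (-(Complex.I * z)) G
    with hΦ
  have hmaps : ∀ u : ℂ, ‖u‖ = 1 → DifferentiableOn ℂ (fun z => ev (u * z) G) (Metric.ball 0 1) := by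
    intro u hu
    apply (ev_differentiableOn hG).comp (by fun_prop)
    intro z hz
    simp only [Metric.mem_ball, dist_zero_right, norm_mul, hu, one_mul] at hz ⊢
    exact hz
  have hΦd : DifferentiableOn ℂ Φ (Metric.ball 0 1) := by
    have h1 := hmaps 1 (by simp)
    have h2 := hmaps Complex.I (by simp)
    have h3 := hmaps (-1) (by simp)
    have h4 := hmaps (-Complex.I) (by simp)
    have := ((h1.mul h2).mul h3).mul h4
    refine this.congr ?_
    intro z _
    simp [hΦ]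
  have hΦdc : DiffContOnCl ℂ Φ (Metric.ball 0 t) := by
    apply DifferentiableOn.diffContOnCl
    apply hΦd.mono
    rw [closure_ball (0 : ℂ) ht0.ne']
    exact Metric.closedBall_subset_ball (by linarith)
  set Bd : ℝ := (Real.exp (η * p)) ^ 3 * Real.exp (-(t * p / 8)) / (t ^ n) ^ 4 with hBd
  have hfr : ∀ w ∈ frontier (Metric.ball (0 : ℂ) t), ‖Φ w‖ ≤ Bd := by
    intro w hw
    rw [frontier_ball (0 : ℂ) ht0.ne'] at hw
    have hw' : ‖w‖ = t := by simpa using hw
    have n2 : ‖Complex.I * w‖ = t := by simp [hw']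
    have n3 : ‖-w‖ = t := by simp [hw']
    have n4 : ‖-(Complex.I * w)‖ = t := by simp [hw']
    have b1 := hbig w hw'
    have b2 := hbig _ n2
    have b3 := hbig _ n3
    have b4 := hbig _ n4
    have htn : 0 < t ^ n := by positivity
    have hE0 : 0 < Real.exp (η * p) / t ^ n := by positivity
    have hS0 : 0 < Real.exp (-(t * p / 8)) / t ^ n := by positivity
    have hBd' : Bd = (Real.exp (η * p) / t ^ n) ^ 3 * (Real.exp (-(t * p / 8)) / t ^ n) := by
      rw [hBd]; field_simp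
    have hnorm : ‖Φ w‖ = ‖ev w G‖ * ‖ev (Complex.I * w) G‖ * ‖ev (-w) G‖
        * ‖ev (-(Complex.I * w)) G‖ := by
      simp only [hΦ, norm_mul]
    rw [hnorm, hBd']
    set e := Real.exp (η * p) / t ^ n
    set q := Real.exp (-(t * p / 8)) / t ^ n
    have c1 := norm_nonneg (ev w G)
    have c2 := norm_nonneg (ev (Complex.I * w) G)
    have c3 := norm_nonneg (ev (-w) G)
    have c4 := norm_nonneg (ev (-(Complex.I * w)) G)
    have hsq : w.re ^ 2 + w.im ^ 2 = t ^ 2 := by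
      have := Complex.sq_norm w
      rw [hw', Complex.normSq_apply] at this
      nlinarith [this]
    -- one of the four points lies in the arc
    have hcases : t / 2 ≤ w.re ∨ t / 2 ≤ (Complex.I * w).re ∨ t / 2 ≤ (-w).re ∨
        t / 2 ≤ (-(Complex.I * w)).re := by
      simp only [Complex.mul_re, Complex.I_re, zero_mul, Complex.I_im, one_mul, zero_sub,
        Complex.neg_re, neg_neg]
      by_contra hcon
      push Not at hcon
      obtain ⟨h1, h2, h3, h4⟩ := hcon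
      nlinarith
    rcases hcases with h | h | h | h
    · have := hsmall _ hw' h
      calc ‖ev w G‖ * ‖ev (Complex.I * w) G‖ * ‖ev (-w) G‖ * ‖ev (-(Complex.I * w)) G‖
          ≤ q * e * e * e := by gcongr
        _ = e ^ 3 * q := by ring
    · have := hsmall _ n2 h
      calc ‖ev w G‖ * ‖ev (Complex.I * w) G‖ * ‖ev (-w) G‖ * ‖ev (-(Complex.I * w)) G‖
          ≤ e * q * e * e := by gcongr
        _ = e ^ 3 * q := by ring
    · have := hsmall _ n3 h
      calc ‖ev w G‖ * ‖ev (Complex.I * w) G‖ * ‖ev (-w) G‖ * ‖ev (-(Complex.I * w)) G‖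
          ≤ e * e * q * e := by gcongr
        _ = e ^ 3 * q := by ring
    · have := hsmall _ n4 h
      calc ‖ev w G‖ * ‖ev (Complex.I * w) G‖ * ‖ev (-w) G‖ * ‖ev (-(Complex.I * w)) G‖
          ≤ e * e * e * q := by gcongr
        _ = e ^ 3 * q := by ring
  have h0 := Complex.norm_le_of_forall_mem_frontier_norm_le Metric.isBounded_ball hΦdc hfr
    (z := 0) (subset_closure (Metric.mem_ball_self ht0))
  have h1 : 1 ≤ ‖Φ 0‖ := by
    simp only [hΦ, mul_zero, neg_zero, norm_mul]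
    nlinarith [one_le_mul_of_one_le_of_one_le hG0 hG0,
      one_le_mul_of_one_le_of_one_le (one_le_mul_of_one_le_of_one_le hG0 hG0) hG0,
      one_le_mul_of_one_le_of_one_le (one_le_mul_of_one_le_of_one_le
        (one_le_mul_of_one_le_of_one_le hG0 hG0) hG0) hG0]
  have h2 : 1 ≤ Bd := h1.trans h0
  have h3 : Real.log Bd = 3 * (η * p) - t * p / 8 + 4 * n * Real.log (1 / t) := by
    rw [hBd, Real.log_div (by positivity) (by positivity), Real.log_mul (by positivity)
      (by positivity), Real.log_pow, Real.log_exp, Real.log_exp, Real.log_pow, Real.log_pow,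
      one_div, Real.log_inv]
    push_cast
    ring
  have h4 : 0 ≤ Real.log Bd := Real.log_nonneg h2
  have hnlt : (n : ℝ) < ε * p := by
    have : n < ⌈ε * p⌉₊ := hn1
    exact Nat.lt_ceil.mp this
  have h5 : ε * Real.log (1 / t) ≤ t / 128 := by
    rw [le_div_iff₀ (by positivity)] at hε
    linarith
  have h6 : (n : ℝ) * Real.log (1 / t) < t / 128 * p := by
    calc (n : ℝ) * Real.log (1 / t) < ε * p * Real.log (1 / t) := by
          exact mul_lt_mul_of_pos_right hnlt hlog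
      _ = (ε * Real.log (1 / t)) * p := by ring
      _ ≤ t / 128 * p := by gcongr
  have h7 : η * p ≤ t / 48 * p := by gcongr
  rw [h3] at h4
  have h8 : 0 < t * p := by positivity
  nlinarith

/-- bounds for `|1-z| / |1+z|` on the arc -/
theorem arc_bounds {t : ℝ} (ht0 : 0 < t) (ht : t ≤ 1 / 8) {z : ℂ} (hz : ‖z‖ = t)
    (hre : t / 2 ≤ z.re) :
    1 ≤ ‖1 + z‖ ∧ 0 < ‖1 - z‖ ∧ ‖1 - z‖ ≤ Real.exp (-(t / 2)) * ‖1 + z‖ ∧
      ‖1 + z‖ ≤ Real.exp (3 * t) * ‖1 - z‖ := by
  have hsq : z.re ^ 2 + z.im ^ 2 = t ^ 2 := by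
    have := Complex.sq_norm z
    rw [hz, Complex.normSq_apply] at this
    nlinarith [this]
  have ha : ‖1 + z‖ ^ 2 = 1 + 2 * z.re + t ^ 2 := by
    rw [Complex.sq_norm, Complex.normSq_apply]
    simp only [Complex.add_re, Complex.one_re, Complex.add_im, Complex.one_im, zero_add]
    nlinarith [hsq]
  have hb : ‖1 - z‖ ^ 2 = 1 - 2 * z.re + t ^ 2 := by
    rw [Complex.sq_norm, Complex.normSq_apply]
    simp only [Complex.sub_re, Complex.one_re, Complex.sub_im, Complex.one_im, zero_sub]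
    nlinarith [hsq]
  have hb1 : 1 - t ≤ ‖1 - z‖ := by
    have := norm_sub_norm_le (1 : ℂ) z
    simpa [hz] using this
  have ha1 : ‖1 + z‖ ≤ 1 + t := by
    have := norm_add_le (1 : ℂ) z
    simpa [hz] using this
  have ha0 := norm_nonneg (1 + z)
  have hxt : z.re ≤ t := by
    have := Complex.re_le_norm z
    rwa [hz] at this
  refine ⟨?_, by linarith, ?_, ?_⟩
  · nlinarith
  · have h1 : ‖1 - z‖ ^ 2 ≤ Real.exp (-t) * ‖1 + z‖ ^ 2 := by
      have h2 : 1 - t ≤ Real.exp (-t) := by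
        have := Real.add_one_le_exp (-t); linarith
      have h3 : (1 - t) * ‖1 + z‖ ^ 2 ≤ Real.exp (-t) * ‖1 + z‖ ^ 2 :=
        mul_le_mul_of_nonneg_right h2 (by positivity)
      refine le_trans ?_ h3
      rw [ha, hb]
      nlinarith [mul_pos ht0 ht0, mul_pos (mul_pos ht0 ht0) ht0]
    have h4 : Real.exp (-t) * ‖1 + z‖ ^ 2 = (Real.exp (-(t / 2)) * ‖1 + z‖) ^ 2 := by
      rw [mul_pow, ← Real.exp_nat_mul]
      congr 2
      push_cast; ring
    rw [h4] at h1
    exact le_of_sq_le_sq h1 (by positivity)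
  · have h1 : 1 + t ≤ Real.exp t := by
      have := Real.add_one_le_exp t; linarith
    have h2 : 1 ≤ Real.exp (2 * t) * (1 - t) := by
      have := Real.add_one_le_exp (2 * t)
      nlinarith
    calc ‖1 + z‖ ≤ 1 + t := ha1
      _ ≤ Real.exp t * 1 := by linarith
      _ ≤ Real.exp t * (Real.exp (2 * t) * (1 - t)) := by gcongr
      _ = Real.exp (3 * t) * (1 - t) := by
          rw [← mul_assoc, ← Real.exp_add]; ring_nf
      _ ≤ Real.exp (3 * t) * ‖1 - z‖ := by gcongr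

/-- the `k`-th term of the sum -/
noncomputable def trm (p : ℕ) (Q : ℕ → PowerSeries ℂ) (z : ℂ) (k : ℕ) : ℂ :=
  (p.choose k : ℂ) * (1 + z) ^ (p.choose 2 - k * (p - k)) * (1 - z) ^ (k * (p - k)) * ev z (Q k)

theorem norm_trm (p : ℕ) (Q : ℕ → PowerSeries ℂ) (z : ℂ) (k : ℕ) :
    ‖trm p Q z k‖ = (p.choose k : ℝ) * ‖1 + z‖ ^ (p.choose 2 - k * (p - k))
      * ‖1 - z‖ ^ (k * (p - k)) * ‖ev z (Q k)‖ := by
  simp [trm]

theorem lam_le (p k : ℕ) (hk : k ≤ p) (hp : 2 ≤ p) : k * (p - k) ≤ p.choose 2 := by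
  obtain ⟨q, rfl⟩ := Nat.exists_eq_add_of_le hk
  rw [Nat.choose_two_right, Nat.add_sub_cancel_left, Nat.le_div_iff_mul_le (by norm_num)]
  have h1 : k ≤ k * k := Nat.le_mul_self k
  have h2 : q ≤ q * q := Nat.le_mul_self q
  have h3 : k + q - 1 + 1 = k + q := by omega
  have h4 : (k + q) * (k + q - 1) + (k + q) = (k + q) * (k + q) := by
    conv_rhs => rw [← h3]
    rw [h3]
    nlinarith
  nlinarith

theorem trm_symm {p : ℕ} {Q : ℕ → PowerSeries ℂ} (hs : ∀ k ≤ p, Q (p - k) = Q k) (z : ℂ) {k : ℕ}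
    (hk : k ≤ p) : trm p Q z (p - k) = trm p Q z k := by
  unfold trm
  rw [hs k hk, Nat.choose_symm hk, Nat.sub_sub_self hk, Nat.mul_comm (p - k) k]

theorem choose_le (p k : ℕ) : (p.choose k : ℝ) ≤ (p : ℝ) ^ k := by
  exact_mod_cast Nat.choose_le_pow p k

/-- bound for all terms except `k = s` (and its mirror) -/
theorem trm_bound {t η εo : ℝ} {s p : ℕ} (ht0 : 0 < t) (ht : t ≤ 1 / 8)
    (H2 : 3 * t * s + 2 * t ≤ εo * Real.log (1 / (4 * t))) (_hεo : 0 < εo)
    (H3 : 2 * s + 2 ≤ p) (H4 : (p : ℝ) * Real.exp (t * s / 2) ≤ Real.exp (t * p / 4))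
    {Q : ℕ → PowerSeries ℂ} (hQ : ∀ k, Q k ∈ GI)
    (hE : ∀ k ≤ p, ∀ z : ℂ, ‖z‖ ≤ 1 / 4 → ‖ev z (Q k)‖ ≤ Real.exp (η * p))
    (hold : ∀ k < s, (PowerSeries.X : PowerSeries ℂ) ^ ⌈εo * p⌉₊ ∣ Q k)
    {z : ℂ} (hz : ‖z‖ = t) (hre : t / 2 ≤ z.re) {k : ℕ} (hk2 : 2 * k ≤ p) (hks : k ≠ s) :
    ‖trm p Q z k‖ ≤ (‖1 + z‖ ^ (p.choose 2 - s * (p - s)) * ‖1 - z‖ ^ (s * (p - s))) *
      ((p : ℝ) ^ (s + 1) * Real.exp (t * s / 2) * Real.exp (-((t / 4 - η) * p))) := by
  obtain ⟨ha1, hb0, hba, hab⟩ := arc_bounds ht0 ht hz hre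
  have hp1 : (1 : ℝ) ≤ p := by
    have : 1 ≤ p := by omega
    exact_mod_cast this
  have hp0 : (0 : ℝ) ≤ p := by linarith
  rw [norm_trm]
  set a := ‖1 + z‖ with ha
  set b := ‖1 - z‖ with hb
  have ha0 : 0 < a := by linarith
  have hkE := hE k (by omega) z (by rw [hz]; linarith)
  have hNs : s * (p - s) ≤ p.choose 2 := lam_le p s (by omega) (by omega)
  have hNk : k * (p - k) ≤ p.choose 2 := lam_le p k (by omega) (by omega)
  rcases Nat.lt_or_gt_of_ne hks with hlt | hgt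
  · -- old term
    obtain ⟨j, hj⟩ := Nat.exists_eq_add_of_lt hlt
    obtain ⟨d, hd⟩ : ∃ d, s * (p - s) = k * (p - k) + d := by
      refine Nat.exists_eq_add_of_le ?_
      obtain ⟨r, hr⟩ := Nat.exists_eq_add_of_le (show 2 * s ≤ p by omega)
      have e1 : p - s = s + r := by omega
      have e2 : p - k = k + 2 * (j + 1) + r := by omega
      have e3 : s = k + (j + 1) := by omega
      rw [e1, e2, e3]
      nlinarith
    have hdle : (d : ℝ) ≤ s * p := by
      have h1 : d ≤ s * (p - s) := by omega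
      have h2 : s * (p - s) ≤ s * p := Nat.mul_le_mul_left _ (Nat.sub_le _ _)
      exact_mod_cast h1.trans h2
    have hpow : a ^ (p.choose 2 - k * (p - k)) * b ^ (k * (p - k)) ≤
        (a ^ (p.choose 2 - s * (p - s)) * b ^ (s * (p - s))) * Real.exp (3 * t * d) := by
      have e1 : p.choose 2 - k * (p - k) = (p.choose 2 - s * (p - s)) + d := by omega
      rw [e1, hd, pow_add, pow_add]
      have h1 : a ^ d ≤ (Real.exp (3 * t) * b) ^ d := pow_le_pow_left₀ ha0.le hab d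
      have h2 : (Real.exp (3 * t) * b) ^ d = Real.exp (3 * t * d) * b ^ d := by
        rw [mul_pow, ← Real.exp_nat_mul]; ring_nf
      rw [h2] at h1
      calc a ^ (p.choose 2 - (k * (p - k) + d)) * a ^ d * b ^ (k * (p - k))
          ≤ a ^ (p.choose 2 - (k * (p - k) + d)) * (Real.exp (3 * t * d) * b ^ d)
            * b ^ (k * (p - k)) := by gcongr
        _ = _ := by ring
    have hev : ‖ev z (Q k)‖ ≤ Real.exp (-((3 * t * s + 2 * t) * p)) * Real.exp (η * p) := by
      have h1 := ev_le_of_dvd (GI.good (hQ k)) (hold k hlt) (hE k (by omega)) z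
        (by rw [hz]; linarith)
      rw [hz] at h1
      refine h1.trans ?_
      apply mul_le_mul_of_nonneg_right _ (Real.exp_pos _).le
      have h2 : εo * p ≤ ⌈εo * p⌉₊ := Nat.le_ceil _
      have h4t : 0 < 4 * t := by linarith
      have h3 : Real.log (4 * t) = -Real.log (1 / (4 * t)) := by
        rw [one_div, Real.log_inv, neg_neg]
      have hL : 0 ≤ Real.log (1 / (4 * t)) := by
        apply Real.log_nonneg
        rw [le_div_iff₀ h4t]; linarith
      have h5 : (4 * t) ^ ⌈εo * p⌉₊ = Real.exp (⌈εo * p⌉₊ * Real.log (4 * t)) := by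
        rw [Real.exp_nat_mul, Real.exp_log h4t]
      rw [h5, Real.exp_le_exp, h3]
      have h6 : (εo * p) * Real.log (1 / (4 * t)) ≤ ⌈εo * p⌉₊ * Real.log (1 / (4 * t)) :=
        mul_le_mul_of_nonneg_right h2 hL
      have h7 : (3 * t * s + 2 * t) * p ≤ (εo * Real.log (1 / (4 * t))) * p :=
        mul_le_mul_of_nonneg_right H2 hp0
      nlinarith
    have hch : (p.choose k : ℝ) ≤ (p : ℝ) ^ (s + 1) :=
      (choose_le p k).trans (pow_le_pow_right₀ hp1 (by omega))
    have hexp3 : Real.exp (3 * t * d) * (Real.exp (-((3 * t * s + 2 * t) * p)) * Real.exp (η * p))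
        ≤ Real.exp (t * s / 2) * Real.exp (-((t / 4 - η) * p)) := by
      rw [← Real.exp_add, ← Real.exp_add, ← Real.exp_add, Real.exp_le_exp]
      have h1 : 3 * t * d ≤ 3 * t * (s * p) := by gcongr
      have h2 : 0 ≤ t * s / 2 := by positivity
      have h3 : 0 ≤ t * p := by positivity
      nlinarith
    set D := a ^ (p.choose 2 - s * (p - s)) * b ^ (s * (p - s)) with hD
    have hD0 : 0 ≤ D := by positivity
    calc (p.choose k : ℝ) * a ^ (p.choose 2 - k * (p - k)) * b ^ (k * (p - k)) * ‖ev z (Q k)‖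
        = (p.choose k : ℝ) * (a ^ (p.choose 2 - k * (p - k)) * b ^ (k * (p - k)))
          * ‖ev z (Q k)‖ := by ring
      _ ≤ (p : ℝ) ^ (s + 1) * (D * Real.exp (3 * t * d))
          * (Real.exp (-((3 * t * s + 2 * t) * p)) * Real.exp (η * p)) := by gcongr
      _ = D * ((p : ℝ) ^ (s + 1) * (Real.exp (3 * t * d)
          * (Real.exp (-((3 * t * s + 2 * t) * p)) * Real.exp (η * p)))) := by ring
      _ ≤ D * ((p : ℝ) ^ (s + 1) * (Real.exp (t * s / 2) * Real.exp (-((t / 4 - η) * p)))) := by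
          gcongr
      _ = _ := by ring
  · -- new term
    obtain ⟨m, hm⟩ := Nat.exists_eq_add_of_lt hgt
    obtain ⟨r, hr⟩ := Nat.exists_eq_add_of_le hk2
    have hk' : k = s + (m + 1) := by omega
    have hdd : k * (p - k) = s * (p - s) + (m + 1) * (m + 1 + r) := by
      have e1 : p - s = s + 2 * (m + 1) + r := by omega
      have e2 : p - k = s + (m + 1) + r := by omega
      rw [e1, e2, hk']
      ring
    set d := (m + 1) * (m + 1 + r) with hddef
    have hpow : a ^ (p.choose 2 - k * (p - k)) * b ^ (k * (p - k)) ≤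
        (a ^ (p.choose 2 - s * (p - s)) * b ^ (s * (p - s))) * Real.exp (-(t / 2) * d) := by
      have e1 : p.choose 2 - s * (p - s) = (p.choose 2 - k * (p - k)) + d := by omega
      rw [e1, hdd, pow_add, pow_add]
      have h1 : b ^ d ≤ (Real.exp (-(t / 2)) * a) ^ d := pow_le_pow_left₀ hb0.le hba d
      have h2 : (Real.exp (-(t / 2)) * a) ^ d = Real.exp (-(t / 2) * d) * a ^ d := by
        rw [mul_pow, ← Real.exp_nat_mul]; ring_nf
      rw [h2] at h1
      calc a ^ (p.choose 2 - (s * (p - s) + d)) * (b ^ (s * (p - s)) * b ^ d)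
          ≤ a ^ (p.choose 2 - (s * (p - s) + d)) * (b ^ (s * (p - s)) *
            (Real.exp (-(t / 2) * d) * a ^ d)) := by gcongr
        _ = _ := by ring
    have hdge : ((m : ℝ) + 1) * ((p : ℝ) - 2 * s) / 2 ≤ d := by
      have e1 : (p : ℝ) - 2 * s = 2 * (m + 1) + r := by
        have : p = 2 * (s + (m + 1)) + r := by omega
        rw [this]; push_cast; ring
      rw [e1, hddef]
      push_cast
      have hr0 : (0 : ℝ) ≤ r := by positivity
      have hm0 : (0 : ℝ) ≤ m := by positivity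
      nlinarith [mul_nonneg (by linarith : (0:ℝ) ≤ m + 1) hr0]
    set u : ℝ := (p : ℝ) * Real.exp (-(t * (p - 2 * s) / 4)) with hu
    have hu0 : 0 ≤ u := by positivity
    have hu1 : u ≤ 1 := by
      have e1 : Real.exp (-(t * (p - 2 * s) / 4)) = Real.exp (t * s / 2) / Real.exp (t * p / 4) := by
        rw [← Real.exp_sub]; congr 1; ring
      rw [hu, e1, ← mul_div_assoc]
      rw [div_le_one (Real.exp_pos _)]
      exact H4
    have hch : (p.choose k : ℝ) ≤ (p : ℝ) ^ s * (p : ℝ) ^ (m + 1) := by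
      rw [← pow_add, ← hk']; exact choose_le p k
    have hexpd : Real.exp (-(t / 2) * d) ≤ (Real.exp (-(t * (p - 2 * s) / 4))) ^ (m + 1) := by
      rw [← Real.exp_nat_mul, Real.exp_le_exp]
      push_cast
      nlinarith
    have hum : u ^ (m + 1) ≤ u := by
      calc u ^ (m + 1) = u * u ^ m := by ring
        _ ≤ u * 1 := by
            apply mul_le_mul_of_nonneg_left _ hu0
            exact pow_le_one₀ hu0 hu1
        _ = u := by ring
    set D := a ^ (p.choose 2 - s * (p - s)) * b ^ (s * (p - s)) with hD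
    have hD0 : 0 ≤ D := by positivity
    calc (p.choose k : ℝ) * a ^ (p.choose 2 - k * (p - k)) * b ^ (k * (p - k)) * ‖ev z (Q k)‖
        = (p.choose k : ℝ) * (a ^ (p.choose 2 - k * (p - k)) * b ^ (k * (p - k)))
          * ‖ev z (Q k)‖ := by ring
      _ ≤ ((p : ℝ) ^ s * (p : ℝ) ^ (m + 1)) * (D * Real.exp (-(t / 2) * d))
          * Real.exp (η * p) := by gcongr
      _ ≤ ((p : ℝ) ^ s * (p : ℝ) ^ (m + 1)) * (D * (Real.exp (-(t * (p - 2 * s) / 4))) ^ (m + 1))
          * Real.exp (η * p) := by gcongr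
      _ = D * ((p : ℝ) ^ s * u ^ (m + 1) * Real.exp (η * p)) := by rw [hu, mul_pow]; ring
      _ ≤ D * ((p : ℝ) ^ s * u * Real.exp (η * p)) := by gcongr
      _ = _ := by
          rw [hu, pow_succ]
          have e1 : Real.exp (-(t * (p - 2 * s) / 4)) * Real.exp (η * p)
              = Real.exp (t * s / 2) * Real.exp (-((t / 4 - η) * p)) := by
            rw [← Real.exp_add, ← Real.exp_add]; congr 1; ring
          calc D * ((p : ℝ) ^ s * (p * Real.exp (-(t * (p - 2 * s) / 4))) * Real.exp (η * p))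
              = D * ((p : ℝ) ^ s * p * (Real.exp (-(t * (p - 2 * s) / 4)) * Real.exp (η * p))) := by
                ring
            _ = _ := by rw [e1]; ring

/-- the value of `Q_s` on the arc is small -/
theorem arc_small {t η εo : ℝ} {s p : ℕ} (ht0 : 0 < t) (ht : t ≤ 1 / 8) (hη : η ≤ t / 48)
    (H1 : 3 * t * s ≤ 1)
    (H2 : 3 * t * s + 2 * t ≤ εo * Real.log (1 / (4 * t))) (hεo : 0 < εo)
    (H3 : 2 * s + 2 ≤ p)
    (H5 : (p : ℝ) ^ (s + 2) * Real.exp (t * s / 2) ≤ Real.exp (t * p / 16))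
    {Q : ℕ → PowerSeries ℂ} (hQ : ∀ k, Q k ∈ GI) (hsymm : ∀ k ≤ p, Q (p - k) = Q k)
    (hE : ∀ k ≤ p, ∀ z : ℂ, ‖z‖ ≤ 1 / 4 → ‖ev z (Q k)‖ ≤ Real.exp (η * p))
    (hS : ∀ z : ℂ, ‖z‖ ≤ 1 / 4 →
      ‖∑ k ∈ range (p + 1), (p.choose k : ℂ) * (1 + z) ^ (p.choose 2 - k * (p - k))
          * (1 - z) ^ (k * (p - k)) * ev z (Q k)‖ ≤ Real.exp (-(3 * p)))
    (hold : ∀ k < s, (PowerSeries.X : PowerSeries ℂ) ^ ⌈εo * p⌉₊ ∣ Q k)
    {z : ℂ} (hz : ‖z‖ = t) (hre : t / 2 ≤ z.re) :
    ‖ev z (Q s)‖ ≤ Real.exp (-(t * p / 8)) := by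
  obtain ⟨ha1, hb0, hba, hab⟩ := arc_bounds ht0 ht hz hre
  have hp1 : (1 : ℝ) ≤ p := by
    have : 1 ≤ p := by omega
    exact_mod_cast this
  have hp0 : (0 : ℝ) ≤ p := by linarith
  have H4 : (p : ℝ) * Real.exp (t * s / 2) ≤ Real.exp (t * p / 4) := by
    calc (p : ℝ) * Real.exp (t * s / 2) ≤ (p : ℝ) ^ (s + 2) * Real.exp (t * s / 2) := by
          gcongr
          calc (p : ℝ) = (p : ℝ) ^ 1 := (pow_one _).symm
            _ ≤ (p : ℝ) ^ (s + 2) := pow_le_pow_right₀ hp1 (by omega)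
      _ ≤ Real.exp (t * p / 16) := H5
      _ ≤ Real.exp (t * p / 4) := by
          rw [Real.exp_le_exp]
          have : 0 ≤ t * p := by positivity
          linarith
  set D := ‖1 + z‖ ^ (p.choose 2 - s * (p - s)) * ‖1 - z‖ ^ (s * (p - s)) with hD
  set B := (p : ℝ) ^ (s + 1) * Real.exp (t * s / 2) * Real.exp (-((t / 4 - η) * p)) with hB
  have hD0 : 0 < D := by positivity
  have hB0 : 0 ≤ B := by positivity
  have hbound : ∀ k ∈ ((range (p + 1)).erase s).erase (p - s), ‖trm p Q z k‖ ≤ D * B := by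
    intro k hk
    simp only [mem_erase, mem_range] at hk
    obtain ⟨h1, h2, h3⟩ := hk
    rcases le_or_gt (2 * k) p with h | h
    · exact trm_bound ht0 ht H2 hεo H3 H4 hQ hE hold hz hre h h2
    · rw [← trm_symm hsymm z (show k ≤ p by omega)]
      exact trm_bound ht0 ht H2 hεo H3 H4 hQ hE hold hz hre (by omega) (by omega)
  have hmem1 : s ∈ range (p + 1) := by simp; omega
  have hmem2 : p - s ∈ (range (p + 1)).erase s := by
    simp only [mem_erase, mem_range]; omega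
  have hsum : ∑ k ∈ range (p + 1), trm p Q z k
      = 2 * trm p Q z s + ∑ k ∈ ((range (p + 1)).erase s).erase (p - s), trm p Q z k := by
    rw [← Finset.add_sum_erase _ _ hmem1, ← Finset.add_sum_erase _ _ hmem2,
      trm_symm hsymm z (show s ≤ p by omega)]
    ring
  have hS' : ‖∑ k ∈ range (p + 1), trm p Q z k‖ ≤ Real.exp (-(3 * p)) :=
    hS z (by rw [hz]; linarith)
  have hrest : ‖∑ k ∈ ((range (p + 1)).erase s).erase (p - s), trm p Q z k‖ ≤ p * (D * B) := by
    refine (norm_sum_le _ _).trans ?_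
    refine (Finset.sum_le_card_nsmul _ _ _ hbound).trans ?_
    rw [nsmul_eq_mul]
    apply mul_le_mul_of_nonneg_right _ (by positivity)
    have hc : (((range (p + 1)).erase s).erase (p - s)).card ≤ p := by
      rw [Finset.card_erase_of_mem hmem2, Finset.card_erase_of_mem hmem1, card_range]
      omega
    exact_mod_cast hc
  have h2 : 2 * ‖trm p Q z s‖ ≤ Real.exp (-(3 * p)) + p * (D * B) := by
    have e1 : 2 * trm p Q z s = ∑ k ∈ range (p + 1), trm p Q z k
        - ∑ k ∈ ((range (p + 1)).erase s).erase (p - s), trm p Q z k := by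
      rw [hsum]; ring
    have e2 : ‖2 * trm p Q z s‖ = 2 * ‖trm p Q z s‖ := by simp
    rw [← e2, e1]
    exact (norm_sub_le _ _).trans (add_le_add hS' hrest)
  have h3 : D * ‖ev z (Q s)‖ ≤ ‖trm p Q z s‖ := by
    rw [norm_trm]
    have hc : (1 : ℝ) ≤ p.choose s := by
      have : 1 ≤ p.choose s := Nat.choose_pos (by omega)
      exact_mod_cast this
    calc D * ‖ev z (Q s)‖ = 1 * (D * ‖ev z (Q s)‖) := by ring
      _ ≤ p.choose s * (D * ‖ev z (Q s)‖) := by gcongr
      _ = _ := by rw [hD]; ring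
  have hDlow : Real.exp (-p) ≤ D := by
    have h4 : Real.exp (-(3 * t)) ≤ ‖1 - z‖ := by
      have : Real.exp (-(3 * t)) * ‖1 + z‖ ≤ Real.exp (-(3 * t)) * (Real.exp (3 * t) * ‖1 - z‖) := by
        gcongr
      rw [← mul_assoc, ← Real.exp_add] at this
      simp only [neg_add_cancel, Real.exp_zero, one_mul] at this
      calc Real.exp (-(3 * t)) = Real.exp (-(3 * t)) * 1 := by ring
        _ ≤ Real.exp (-(3 * t)) * ‖1 + z‖ := by gcongr
        _ ≤ _ := this
    have h5 : Real.exp (-(3 * t)) ^ (s * (p - s)) ≤ ‖1 - z‖ ^ (s * (p - s)) :=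
      pow_le_pow_left₀ (Real.exp_pos _).le h4 _
    have h6 : Real.exp (-p) ≤ Real.exp (-(3 * t)) ^ (s * (p - s)) := by
      rw [← Real.exp_nat_mul, Real.exp_le_exp]
      have h7 : ((s * (p - s) : ℕ) : ℝ) ≤ s * p := by
        have : s * (p - s) ≤ s * p := Nat.mul_le_mul_left _ (Nat.sub_le _ _)
        exact_mod_cast this
      have h8 : (3 * t) * ((s * (p - s) : ℕ) : ℝ) ≤ (3 * t) * (s * p) := by gcongr
      have h9 : (3 * t * s) * p ≤ 1 * p := by gcongr
      nlinarith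
    calc Real.exp (-p) ≤ ‖1 - z‖ ^ (s * (p - s)) := h6.trans h5
      _ = 1 * ‖1 - z‖ ^ (s * (p - s)) := by ring
      _ ≤ _ := by
          rw [hD]
          gcongr
          exact one_le_pow₀ ha1
  have h10 : Real.exp (-(3 * p)) ≤ D * Real.exp (-(2 * p)) := by
    calc Real.exp (-(3 * (p : ℝ))) = Real.exp (-p) * Real.exp (-(2 * p)) := by
          rw [← Real.exp_add]; congr 1; ring
      _ ≤ D * Real.exp (-(2 * p)) := by gcongr
  have h11 : (p : ℝ) * B ≤ Real.exp (-(t * p / 8)) := by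
    have e1 : (p : ℝ) * B = ((p : ℝ) ^ (s + 2) * Real.exp (t * s / 2))
        * Real.exp (-((t / 4 - η) * p)) := by
      rw [hB]; ring
    rw [e1]
    calc ((p : ℝ) ^ (s + 2) * Real.exp (t * s / 2)) * Real.exp (-((t / 4 - η) * p))
        ≤ Real.exp (t * p / 16) * Real.exp (-((t / 4 - η) * p)) := by gcongr
      _ = Real.exp (t * p / 16 - (t / 4 - η) * p) := by rw [← Real.exp_add]; congr 1
      _ ≤ _ := by
          rw [Real.exp_le_exp]
          have h12 : η * p ≤ t / 48 * p := by gcongr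
          have h13 : 0 ≤ t * p := by positivity
          nlinarith
  have h14 : Real.exp (-(2 * (p : ℝ))) ≤ Real.exp (-(t * p / 8)) := by
    rw [Real.exp_le_exp]
    nlinarith
  have h15 : 2 * (D * ‖ev z (Q s)‖) ≤ D * (2 * Real.exp (-(t * p / 8))) := by
    calc 2 * (D * ‖ev z (Q s)‖) ≤ 2 * ‖trm p Q z s‖ := by gcongr
      _ ≤ Real.exp (-(3 * p)) + p * (D * B) := h2
      _ ≤ D * Real.exp (-(2 * p)) + D * (p * B) := by
          have : (p : ℝ) * (D * B) = D * (p * B) := by ring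
          linarith
      _ ≤ D * Real.exp (-(t * p / 8)) + D * Real.exp (-(t * p / 8)) := by gcongr
      _ = _ := by ring
  have h16 : D * ‖ev z (Q s)‖ ≤ D * Real.exp (-(t * p / 8)) := by linarith
  exact le_of_mul_le_mul_left h16 hD0

theorem dominance_aux (s : ℕ) : ∃ ε η : ℝ, 0 < ε ∧ 0 < η ∧ ∃ p₀ : ℕ, ∀ p ≥ p₀,
    ∀ Q : ℕ → PowerSeries ℂ,
    (∀ k, Q k ∈ GI) → (∀ k ≤ p, Q (p - k) = Q k) →
    (∀ k ≤ p, ∀ z : ℂ, ‖z‖ ≤ 1 / 4 → ‖ev z (Q k)‖ ≤ Real.exp (η * p)) →
    (∀ z : ℂ, ‖z‖ ≤ 1 / 4 →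
      ‖∑ k ∈ range (p + 1), (p.choose k : ℂ) * (1 + z) ^ (p.choose 2 - k * (p - k))
          * (1 - z) ^ (k * (p - k)) * ev z (Q k)‖ ≤ Real.exp (-(3 * p))) →
    ∀ k < s, (PowerSeries.X : PowerSeries ℂ) ^ ⌈ε * p⌉₊ ∣ Q k := by
  induction s with
  | zero => exact ⟨1, 1, one_pos, one_pos, 0, fun p _ Q _ _ _ _ k hk => absurd hk (by omega)⟩
  | succ s ih =>
    obtain ⟨εo, ηo, hεo, hηo, p₁, ih⟩ := ih
    set t : ℝ := min (min (1 / 8) (1 / (3 * (s + 1)))) (Real.exp (-(2 / εo)) / 4) with ht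
    have ht0 : 0 < t := by
      rw [ht]; positivity
    have ht8 : t ≤ 1 / 8 := (min_le_left _ _).trans (min_le_left _ _)
    have ht3 : t ≤ 1 / (3 * (s + 1)) := (min_le_left _ _).trans (min_le_right _ _)
    have hte : t ≤ Real.exp (-(2 / εo)) / 4 := min_le_right _ _
    have H1 : 3 * t * s ≤ 1 := by
      rw [le_div_iff₀ (by positivity)] at ht3
      nlinarith
    have H2 : 3 * t * s + 2 * t ≤ εo * Real.log (1 / (4 * t)) := by
      have h1 : 2 / εo ≤ Real.log (1 / (4 * t)) := by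
        rw [Real.le_log_iff_exp_le (by positivity), le_div_iff₀ (by positivity)]
        calc Real.exp (2 / εo) * (4 * t) ≤ Real.exp (2 / εo) * Real.exp (-(2 / εo)) := by
              gcongr; linarith
          _ = 1 := by rw [← Real.exp_add]; simp
      have h2 : εo * (2 / εo) ≤ εo * Real.log (1 / (4 * t)) := by gcongr
      have h3 : εo * (2 / εo) = 2 := by field_simp
      linarith
    have hlog : 0 < Real.log (1 / t) := by
      apply Real.log_pos
      rw [lt_div_iff₀ ht0]; linarith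
    have hev : ∀ᶠ p : ℕ in Filter.atTop,
        (p : ℝ) ^ (s + 2) * Real.exp (t * s / 2) ≤ Real.exp (t * p / 16) := by
      have h1 := (isLittleO_pow_exp_pos_mul_atTop (s + 2) (show 0 < t / 16 by positivity)).comp_tendsto
        (tendsto_natCast_atTop_atTop (R := ℝ))
      have h2 := h1.bound (show 0 < Real.exp (-(t * s / 2)) by positivity)
      filter_upwards [h2] with p hp
      simp only [Function.comp_apply, norm_pow, Real.norm_eq_abs, Real.abs_exp, Nat.abs_cast] at hp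
      calc (p : ℝ) ^ (s + 2) * Real.exp (t * s / 2)
          ≤ (Real.exp (-(t * s / 2)) * Real.exp (t / 16 * p)) * Real.exp (t * s / 2) := by gcongr
        _ = Real.exp (t * p / 16) := by
            rw [← Real.exp_add, ← Real.exp_add]; congr 1; ring
    obtain ⟨p₂, hp₂⟩ := Filter.eventually_atTop.mp hev
    refine ⟨min εo (t / (128 * Real.log (1 / t))), min ηo (t / 48), by positivity, by positivity,
      max (max p₁ p₂) (2 * s + 2), ?_⟩
    intro p hp Q hQ hsymm hE hS k hk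
    have hpp1 : p₁ ≤ p := (le_max_left _ _).trans ((le_max_left _ _).trans hp)
    have hpp2 : p₂ ≤ p := (le_max_right _ _).trans ((le_max_left _ _).trans hp)
    have hpp3 : 2 * s + 2 ≤ p := (le_max_right _ _).trans hp
    have hp0 : (0 : ℝ) < p := by
      have : 0 < p := by omega
      exact_mod_cast this
    have hold := ih p hpp1 Q hQ hsymm (fun k hk z hz => (hE k hk z hz).trans (by
      rw [Real.exp_le_exp]
      exact mul_le_mul_of_nonneg_right (min_le_left _ _) hp0.le)) hS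
    rcases Nat.lt_succ_iff_lt_or_eq.mp hk with hlt | rfl
    · refine (pow_dvd_pow _ ?_).trans (hold k hlt)
      apply Nat.ceil_mono
      exact mul_le_mul_of_nonneg_right (min_le_left _ _) hp0.le
    · refine order_large (hQ k) ht0 ht8 (min_le_right ηo (t / 48)) hp0 (hE k (by omega)) ?_
        (min_le_right _ _)
      intro z hz hre
      exact arc_small ht0 ht8 (min_le_right _ _) H1 H2 hεo hpp3 (hp₂ p hpp2) hQ hsymm hE hS hold
        hz hre

theorem dominance (s : ℕ) : ∃ ε η : ℝ, 0 < ε ∧ 0 < η ∧ ∃ p₀ : ℕ, ∀ p ≥ p₀,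
    ∀ Q : ℕ → PowerSeries ℂ,
    (∀ k, Q k ∈ GI) → (∀ k ≤ p, Q (p - k) = Q k) →
    (∀ k ≤ p, ∀ z : ℂ, ‖z‖ ≤ 1 / 4 → ‖ev z (Q k)‖ ≤ Real.exp (η * p)) →
    (∀ z : ℂ, ‖z‖ ≤ 1 / 4 →
      ‖∑ k ∈ range (p + 1), (p.choose k : ℂ) * (1 + z) ^ (p.choose 2 - k * (p - k))
          * (1 - z) ^ (k * (p - k)) * ev z (Q k)‖ ≤ Real.exp (-(3 * p))) →
    ∀ k ≤ s, (PowerSeries.X : PowerSeries ℂ) ^ ⌈ε * p⌉₊ ∣ Q k := by
  obtain ⟨ε, η, h1, h2, p₀, h⟩ := dominance_aux (s + 1)
  exact ⟨ε, η, h1, h2, p₀, fun p hp Q a b c d k hk => h p hp Q a b c d k (by omega)⟩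

end Pool.Agent.Helper68
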