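import Mathlib

/-!
Order of vanishing of a Wronskian (with respect to the Euler operator) of power series that are
linearly independent modulo `X ^ n`.
-/

namespace Pool.Agent.Helper68

open PowerSeries

/-- the Euler operator `X d/dX` -/
noncomputable def theta (K : Type*) [CommRing K] : Derivation K (PowerSeries K) (PowerSeries K) :=
  (PowerSeries.X : PowerSeries K) • PowerSeries.derivative K

theorem coeff_theta {K : Type*} [CommRing K] (f : PowerSeries K) (m : ℕ) :
    coeff m (theta K f) = (m : K) * coeff m f := by
  cases m with
  | zero => simp [theta]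
  | succ m =>
    have : theta K f = X * PowerSeries.derivative K f := by
      simp [theta]
    rw [this, PowerSeries.coeff_succ_X_mul, PowerSeries.coeff_derivative]
    push_cast
    ring

theorem coeff_theta_iterate {K : Type*} [CommRing K] (f : PowerSeries K) (i m : ℕ) :
    coeff m ((theta K)^[i] f) = (m : K) ^ i * coeff m f := by
  induction i with
  | zero => simp
  | succ i ih =>
    rw [Function.iterate_succ_apply', coeff_theta, ih]
    ring

theorem theta_iterate_sub_smul {K : Type*} [CommRing K] (f g : PowerSeries K) (c : K) (i : ℕ) :
    (theta K)^[i] (f - c • g) = (theta K)^[i] f - c • (theta K)^[i] g := by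
  ext m
  simp only [coeff_theta_iterate, map_sub, PowerSeries.coeff_smul, smul_eq_mul]
  ring

theorem wronskian_distinct {K : Type*} [Field K] [CharZero K] {q : ℕ} (f : Fin q → PowerSeries K)
    (n : ℕ) (o : Fin q → ℕ) (ho : ∀ l, o l < n) (hz : ∀ l, ∀ m < o l, coeff m (f l) = 0)
    (hl : ∀ l, coeff (o l) (f l) ≠ 0) (hinj : Function.Injective o) :
    ¬ (PowerSeries.X : PowerSeries K) ^ (q * n + 1) ∣
      Matrix.det (Matrix.of fun (i l : Fin q) => (theta K)^[(i : ℕ)] (f l)) := by
  have hdvd : ∀ i l : Fin q, ∃ g : PowerSeries K,
      (theta K)^[(i : ℕ)] (f l) = X ^ (o l) * g := by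
    intro i l
    have : (X : PowerSeries K) ^ (o l) ∣ (theta K)^[(i : ℕ)] (f l) := by
      rw [PowerSeries.X_pow_dvd_iff]
      intro m hm
      rw [coeff_theta_iterate, hz l m hm, mul_zero]
    exact this
  choose g hg using hdvd
  have hc : ∀ i l, constantCoeff (g i l) = (o l : K) ^ (i : ℕ) * coeff (o l) (f l) := by
    intro i l
    have h1 := coeff_theta_iterate (f l) (i : ℕ) (o l)
    rw [hg i l] at h1
    rw [← h1]
    have h2 := PowerSeries.coeff_X_pow_mul (g i l) (o l) 0
    rw [zero_add] at h2
    rw [h2, PowerSeries.coeff_zero_eq_constantCoeff]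
  have hM : (Matrix.of fun (i l : Fin q) => (theta K)^[(i : ℕ)] (f l))
      = Matrix.of (fun (i l : Fin q) => (fun l => (X : PowerSeries K) ^ (o l)) l *
        (Matrix.of g) i l) := by
    ext1 i l
    simp [hg]
  rw [hM, Matrix.det_mul_row]
  intro hd
  have hprod : ∏ l : Fin q, (X : PowerSeries K) ^ (o l) = X ^ (∑ l, o l) := by
    rw [Finset.prod_pow_eq_pow_sum]
  rw [hprod] at hd
  have hsum : ∑ l, o l ≤ q * n := by
    calc ∑ l, o l ≤ ∑ _l : Fin q, n := Finset.sum_le_sum (fun l _ => (ho l).le)
      _ = q * n := by simp
  have h3 : (coeff (∑ l, o l)) ((X : PowerSeries K) ^ (∑ l, o l) * (Matrix.of g).det) = 0 := by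
    rw [PowerSeries.X_pow_dvd_iff] at hd
    exact hd _ (by omega)
  have h4 := PowerSeries.coeff_X_pow_mul ((Matrix.of g).det) (∑ l, o l) 0
  rw [zero_add] at h4
  rw [h4, PowerSeries.coeff_zero_eq_constantCoeff, RingHom.map_det] at h3
  have hM2 : (constantCoeff (R := K)).mapMatrix (Matrix.of g)
      = Matrix.of (fun (i l : Fin q) => (fun l => coeff (o l) (f l)) l *
        (Matrix.vandermonde (fun l => (o l : K))).transpose i l) := by
    ext1 i l
    simp [hc, Matrix.vandermonde, Matrix.transpose, mul_comm]
  rw [hM2, Matrix.det_mul_row, Matrix.det_transpose] at h3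
  rcases mul_eq_zero.mp h3 with h5 | h5
  · rw [Finset.prod_eq_zero_iff] at h5
    obtain ⟨l, _, h6⟩ := h5
    exact hl l h6
  · refine (Matrix.det_vandermonde_ne_zero_iff.mpr ?_) h5
    intro a b hab
    exact hinj (Nat.cast_injective (R := K) hab)

theorem wronskian_order_aux {K : Type*} [Field K] [CharZero K] {q : ℕ} (n : ℕ) (N : ℕ) :
    ∀ (f : Fin q → PowerSeries K) (o : Fin q → ℕ),
    (∀ l, o l < n) → (∀ l, ∀ m < o l, coeff m (f l) = 0) →
    (∀ l, coeff (o l) (f l) ≠ 0) →
    (∀ γ : Fin q → K, (PowerSeries.X : PowerSeries K) ^ n ∣ ∑ l, γ l • f l → γ = 0) →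
    (∑ l, (n - o l) = N) →
    ¬ (PowerSeries.X : PowerSeries K) ^ (q * n + 1) ∣
      Matrix.det (Matrix.of fun (i l : Fin q) => (theta K)^[(i : ℕ)] (f l)) := by
  induction N using Nat.strong_induction_on with
  | _ N ih =>
    intro f o ho hz hl h hN
    by_cases hinj : Function.Injective o
    · exact wronskian_distinct f n o ho hz hl hinj
    · simp only [Function.Injective] at hinj
      push Not at hinj
      obtain ⟨i, j, hoij, hij⟩ := hinj
      set c : K := coeff (o j) (f j) / coeff (o i) (f i) with hcdef
      -- the new family
      set f' : Fin q → PowerSeries K := Function.update f j (f j - c • f i) with hf'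
      have hf'j : f' j = f j - c • f i := by simp [hf']
      have hf'l : ∀ l, l ≠ j → f' l = f l := by
        intro l hlj; simp [hf', hlj]
      -- h holds for the new family
      have hsum' : ∀ γ : Fin q → K, ∑ l, γ l • f' l
          = ∑ l, (Function.update γ i (γ i - c * γ j)) l • f l := by
        intro γ
        have e1 : ∑ l, γ l • f' l = ∑ l, γ l • f l - (γ j * c) • f i := by
          have : ∀ l, γ l • f' l = γ l • f l - (if l = j then (γ j * c) • f i else 0) := by
            intro l
            by_cases hlj : l = j
            · subst hlj
              rw [hf'j, smul_sub, if_pos rfl, smul_smul]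
            · rw [hf'l l hlj, if_neg hlj, sub_zero]
          rw [Finset.sum_congr rfl (fun l _ => this l), Finset.sum_sub_distrib]
          simp
        have e2 : ∑ l, (Function.update γ i (γ i - c * γ j)) l • f l
            = ∑ l, γ l • f l - (γ j * c) • f i := by
          have : ∀ l, (Function.update γ i (γ i - c * γ j)) l • f l
              = γ l • f l - (if l = i then (γ j * c) • f i else 0) := by
            intro l
            by_cases hli : l = i
            · subst hli
              rw [Function.update_self, if_pos rfl, sub_smul, mul_comm]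
            · rw [Function.update_of_ne hli, if_neg hli, sub_zero]
          rw [Finset.sum_congr rfl (fun l _ => this l), Finset.sum_sub_distrib]
          simp
        rw [e1, e2]
      have h' : ∀ γ : Fin q → K, (PowerSeries.X : PowerSeries K) ^ n ∣ ∑ l, γ l • f' l →
          γ = 0 := by
        intro γ hγ
        rw [hsum'] at hγ
        have h0 := h _ hγ
        have h1 : ∀ l, l ≠ i → γ l = 0 := by
          intro l hli
          have := congrFun h0 l
          rwa [Function.update_of_ne hli] at this
        have h2 : γ i - c * γ j = 0 := by
          have := congrFun h0 i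
          rwa [Function.update_self] at this
        funext l
        by_cases hli : l = i
        · subst hli
          rw [h1 j (Ne.symm hij), mul_zero, sub_zero] at h2
          simpa using h2
        · simpa using h1 l hli
      -- coefficients of f' j up to o j vanish
      have hlow : ∀ m ≤ o j, coeff m (f' j) = 0 := by
        intro m hm
        rw [hf'j]
        rcases Nat.lt_or_eq_of_le hm with hlt | heq
        · simp only [map_sub, PowerSeries.coeff_smul, smul_eq_mul]
          rw [hz j m hlt, hz i m (by omega)]
          simp
        · subst heq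
          simp only [map_sub, PowerSeries.coeff_smul, smul_eq_mul]
          have hi := hl i
          rw [← hoij]
          rw [hcdef, ← hoij]
          field_simp
          simp
      -- f' j not divisible by X^n
      have hnd : ¬ (X : PowerSeries K) ^ n ∣ f' j := by
        intro hd
        have := h' (Pi.single j 1) (by
          have e : ∑ l, (Pi.single j (1 : K) : Fin q → K) l • f' l = f' j := by
            rw [Finset.sum_eq_single j]
            · simp
            · intro b _ hb
              simp [hb]
            · simp
          rw [e]; exact hd)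
        have h1 := congrFun this j
        simp at h1
      have hex : ∃ m, m < n ∧ coeff m (f' j) ≠ 0 := by
        by_contra hcon
        push Not at hcon
        exact hnd (PowerSeries.X_pow_dvd_iff.mpr hcon)
      classical
      set o' : Fin q → ℕ := Function.update o j (Nat.find hex) with ho'
      have ho'j : o' j = Nat.find hex := by simp [ho']
      have ho'l : ∀ l, l ≠ j → o' l = o l := by
        intro l hlj; simp [ho', hlj]
      have hfind := Nat.find_spec hex
      have hgt : o j < Nat.find hex := by
        by_contra hcon
        push Not at hcon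
        exact hfind.2 (hlow _ hcon)
      have hdet : Matrix.det (Matrix.of fun (i l : Fin q) => (theta K)^[(i : ℕ)] (f' l))
          = Matrix.det (Matrix.of fun (i l : Fin q) => (theta K)^[(i : ℕ)] (f l)) := by
        have hji : j ≠ i := Ne.symm hij
        have e := Matrix.det_updateCol_add_smul_self
          (Matrix.of fun (i l : Fin q) => (theta K)^[(i : ℕ)] (f l)) hji (-(C c))
        rw [← e]
        congr 1
        ext1 k l
        by_cases hlj : l = j
        · subst hlj
          rw [Matrix.updateCol_self]
          simp only [Matrix.of_apply]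
          rw [hf'j, theta_iterate_sub_smul, sub_eq_add_neg]
          congr 1
          rw [smul_eq_mul, neg_mul, PowerSeries.smul_eq_C_mul]
        · rw [Matrix.updateCol_ne hlj]
          simp only [Matrix.of_apply]
          rw [hf'l l hlj]
      rw [← hdet]
      refine ih (∑ l, (n - o' l)) ?_ f' o' ?_ ?_ ?_ h' rfl
      · rw [← hN]
        apply Finset.sum_lt_sum
        · intro l _
          by_cases hlj : l = j
          · subst hlj
            rw [ho'j]; omega
          · rw [ho'l l hlj]
        · refine ⟨j, Finset.mem_univ _, ?_⟩
          rw [ho'j]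
          have := ho j
          omega
      · intro l
        by_cases hlj : l = j
        · subst hlj; rw [ho'j]; exact hfind.1
        · rw [ho'l l hlj]; exact ho l
      · intro l m hm
        by_cases hlj : l = j
        · subst hlj
          rw [ho'j] at hm
          by_contra hne
          have := hfind.1
          exact Nat.find_min hex hm ⟨by omega, hne⟩
        · rw [ho'l l hlj] at hm
          rw [hf'l l hlj]; exact hz l m hm
      · intro l
        by_cases hlj : l = j
        · subst hlj; rw [ho'j]; exact hfind.2
        · rw [ho'l l hlj, hf'l l hlj]; exact hl l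

theorem wronskian_order {K : Type*} [Field K] [CharZero K] {q : ℕ} (f : Fin q → PowerSeries K)
    (n : ℕ)
    (h : ∀ γ : Fin q → K, (PowerSeries.X : PowerSeries K) ^ n ∣ ∑ l, γ l • f l → γ = 0) :
    ¬ (PowerSeries.X : PowerSeries K) ^ (q * n + 1) ∣
      Matrix.det (Matrix.of fun (i l : Fin q) => (theta K)^[(i : ℕ)] (f l)) := by
  classical
  have hex : ∀ l, ∃ m, m < n ∧ coeff m (f l) ≠ 0 := by
    intro l
    by_contra hcon
    push Not at hcon
    have hd : (X : PowerSeries K) ^ n ∣ f l := PowerSeries.X_pow_dvd_iff.mpr hcon
    have := h (Pi.single l 1) (by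
      have e : ∑ k, (Pi.single l (1 : K) : Fin q → K) k • f k = f l := by
        rw [Finset.sum_eq_single l]
        · simp
        · intro b _ hb
          simp [hb]
        · simp
      rw [e]; exact hd)
    have h1 := congrFun this l
    simp at h1
  refine wronskian_order_aux n _ f (fun l => Nat.find (hex l)) (fun l => (Nat.find_spec (hex l)).1)
    ?_ (fun l => (Nat.find_spec (hex l)).2) h rfl
  intro l m hm
  by_contra hne
  have h1 := (Nat.find_spec (hex l)).1
  exact Nat.find_min (hex l) hm ⟨by omega, hne⟩

end Pool.Agent.Helper68
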